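import Pool.Agent.W837.GB.Defs

/-!
# GB-LDER: the regularised log determinant and its derivative in `δ`
-/

set_option autoImplicit false

open MeasureTheory ProbabilityTheory Filter Topology
open scoped NNReal Matrix ComplexOrder

namespace Pool.Agent.W253.GB

open Pool.Agent.W837.GB

variable {ι : Type} [Fintype ι] [DecidableEq ι]

/-- unitary diagonalisation of `M M*` -/
theorem spec (M : Matrix ι ι ℂ) : ∃ (U : Matrix ι ι ℂ) (l : ι → ℝ), (∀ i, 0 ≤ l i) ∧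
    U * Uᴴ = 1 ∧ Uᴴ * U = 1 ∧ M * Mᴴ = U * Matrix.diagonal (fun i => (l i : ℂ)) * Uᴴ := by
  have hps : (M * Mᴴ).PosSemidef := Matrix.posSemidef_self_mul_conjTranspose M
  have hH : (M * Mᴴ).IsHermitian := hps.isHermitian
  refine ⟨hH.eigenvectorUnitary, hH.eigenvalues, hps.eigenvalues_nonneg, ?_, ?_, ?_⟩
  · exact Unitary.coe_mul_star_self hH.eigenvectorUnitary
  · exact Unitary.coe_star_mul_self hH.eigenvectorUnitary
  · have h := hH.spectral_theorem
    rw [Unitary.conjStarAlgAut_apply] at h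
    exact h

/-- the regularised matrix and its inverse in the eigenbasis -/
theorem specQ (M : Matrix ι ι ℂ) : ∃ (U : Matrix ι ι ℂ) (l : ι → ℝ), (∀ i, 0 ≤ l i) ∧
    U * Uᴴ = 1 ∧ Uᴴ * U = 1 ∧ M * Mᴴ = U * Matrix.diagonal (fun i => (l i : ℂ)) * Uᴴ ∧
    (∀ δ : ℝ, Q M δ = U * Matrix.diagonal (fun i => ((l i + δ ^ 2 : ℝ) : ℂ)) * Uᴴ) ∧
    (∀ δ : ℝ, 0 < δ →
      (Q M δ)⁻¹ = U * Matrix.diagonal (fun i => (((l i + δ ^ 2)⁻¹ : ℝ) : ℂ)) * Uᴴ) := by
  obtain ⟨U, l, hl, hU1, hU2, hM⟩ := spec M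
  have hQ : ∀ δ : ℝ, Q M δ = U * Matrix.diagonal (fun i => ((l i + δ ^ 2 : ℝ) : ℂ)) * Uᴴ := by
    intro δ
    have h1 : Matrix.diagonal (fun i => ((l i + δ ^ 2 : ℝ) : ℂ)) =
        Matrix.diagonal (fun i => (l i : ℂ)) + ((δ ^ 2 : ℝ) : ℂ) • (1 : Matrix ι ι ℂ) := by
      rw [Matrix.smul_one_eq_diagonal, Matrix.diagonal_add]
      congr 1
      funext i
      push_cast
      rfl
    unfold Q
    rw [h1, hM, mul_add, add_mul, Matrix.mul_smul, Matrix.smul_mul, mul_one, hU1]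
  refine ⟨U, l, hl, hU1, hU2, hM, hQ, ?_⟩
  intro δ hδ
  refine Matrix.inv_eq_left_inv ?_
  rw [hQ]
  have h2 : U * Matrix.diagonal (fun i => (((l i + δ ^ 2)⁻¹ : ℝ) : ℂ)) * Uᴴ *
      (U * Matrix.diagonal (fun i => ((l i + δ ^ 2 : ℝ) : ℂ)) * Uᴴ) =
      U * (Matrix.diagonal (fun i => (((l i + δ ^ 2)⁻¹ : ℝ) : ℂ)) * (Uᴴ * U) *
        Matrix.diagonal (fun i => ((l i + δ ^ 2 : ℝ) : ℂ))) * Uᴴ := by
    simp only [Matrix.mul_assoc]
  rw [h2, hU2, mul_one, Matrix.diagonal_mul_diagonal]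
  have h3 : (fun i => (((l i + δ ^ 2)⁻¹ : ℝ) : ℂ) * ((l i + δ ^ 2 : ℝ) : ℂ)) = fun _ => 1 := by
    funext i
    have h4 : l i + δ ^ 2 ≠ 0 := by
      have := hl i
      positivity
    rw [← Complex.ofReal_mul, inv_mul_cancel₀ h4, Complex.ofReal_one]
  rw [h3, Matrix.diagonal_one, mul_one, hU1]

theorem spec_det {U : Matrix ι ι ℂ} (hU1 : U * Uᴴ = 1) (x : ι → ℂ) :
    (U * Matrix.diagonal x * Uᴴ).det = ∏ i, x i := by
  rw [Matrix.det_mul, Matrix.det_mul, Matrix.det_diagonal]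
  have h : U.det * Uᴴ.det = 1 := by rw [← Matrix.det_mul, hU1, Matrix.det_one]
  linear_combination (∏ i, x i) * h

theorem spec_trace {U : Matrix ι ι ℂ} (hU2 : Uᴴ * U = 1) (x : ι → ℂ) :
    (U * Matrix.diagonal x * Uᴴ).trace = ∑ i, x i := by
  rw [Matrix.trace_mul_comm, ← Matrix.mul_assoc, hU2, one_mul, Matrix.trace_diagonal]

/-- the eigenvalues of `M M*` -/
theorem eig (M : Matrix ι ι ℂ) : ∃ l : ι → ℝ, (∀ i, 0 ≤ l i) ∧
    ((M * Mᴴ).trace = ((∑ i, l i : ℝ) : ℂ)) ∧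
    (∀ δ : ℝ, (Q M δ).det = ((∏ i, (l i + δ ^ 2) : ℝ) : ℂ)) ∧
    (∀ δ : ℝ, 0 < δ → tg M δ = ∑ i, δ / (l i + δ ^ 2)) := by
  obtain ⟨U, l, hl, hU1, hU2, hM, hQ, hQi⟩ := specQ M
  refine ⟨l, hl, ?_, ?_, ?_⟩
  · rw [hM, spec_trace hU2]
    push_cast
    rfl
  · intro δ
    rw [hQ, spec_det hU1]
    push_cast
    rfl
  · intro δ hδ
    unfold tg
    rw [hQi δ hδ, spec_trace hU2, Complex.re_sum, Finset.mul_sum]
    simp only [Complex.ofReal_re]
    rfl

theorem ld_eq {M : Matrix ι ι ℂ} {l : ι → ℝ} (hl : ∀ i, 0 ≤ l i)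
    (h : ∀ δ : ℝ, (Q M δ).det = ((∏ i, (l i + δ ^ 2) : ℝ) : ℂ)) (δ : ℝ) (hδ : 0 < δ) :
    ld M δ = ∑ i, Real.log (l i + δ ^ 2) := by
  unfold ld
  rw [h, Complex.ofReal_re, Real.log_prod]
  intro i _
  have := hl i
  positivity

theorem lder : S_LDER := by
  intro ι _ _ M
  obtain ⟨l, hl, -, hdet, htg⟩ := eig M
  have hpos : ∀ (i : ι) (δ : ℝ), 0 < δ → 0 < l i + δ ^ 2 := by
    intro i δ hδ
    have := hl i
    positivity
  refine ⟨?_, ?_, ?_⟩
  · intro δ hδ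
    refine ⟨?_, ?_, ?_⟩
    · rw [hdet, Complex.ofReal_re]
      exact Finset.prod_pos fun i _ => hpos i δ hδ
    · rw [htg δ hδ]
      exact Finset.sum_nonneg fun i _ => div_nonneg hδ.le (hpos i δ hδ).le
    · rw [htg δ hδ]
      have h1 : ∀ i ∈ Finset.univ, δ / (l i + δ ^ 2) ≤ 1 / δ := by
        intro i _
        rw [div_le_div_iff₀ (hpos i δ hδ) hδ]
        have := hl i
        nlinarith
      refine (Finset.sum_le_sum h1).trans (le_of_eq ?_)
      rw [Finset.sum_const, Finset.card_univ, nsmul_eq_mul, mul_one_div]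
  · have h1 : ContinuousOn (fun t : ℝ => ∑ i, t / (l i + t ^ 2)) (Set.Ioi 0) := by
      refine continuousOn_finsetSum _ fun i _ => ?_
      refine ContinuousOn.div continuousOn_id (by fun_prop) ?_
      intro t ht
      exact (hpos i t ht).ne'
    exact h1.congr fun t ht => htg t ht
  · intro δ L hδ hL
    have hd : ∀ t ∈ Set.uIcc δ L, HasDerivAt (fun t => ∑ i, Real.log (l i + t ^ 2))
        (2 * ∑ i, t / (l i + t ^ 2)) t := by
      intro t ht
      rw [Set.uIcc_of_le hL] at ht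
      have ht0 : 0 < t := hδ.trans_le ht.1
      have h1 : ∀ i ∈ Finset.univ, HasDerivAt (fun t : ℝ => Real.log (l i + t ^ 2))
          (2 * (t / (l i + t ^ 2))) t := by
        intro i _
        have h2 : HasDerivAt (fun t : ℝ => l i + t ^ 2) (2 * t) t := by
          have h3 := (hasDerivAt_pow 2 t).const_add (l i)
          simpa using h3
        have h4 := h2.log (hpos i t ht0).ne'
        rwa [mul_div_assoc] at h4
      have h5 := HasDerivAt.fun_sum h1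
      rwa [← Finset.mul_sum] at h5
    have hcont : ContinuousOn (fun t : ℝ => 2 * ∑ i, t / (l i + t ^ 2)) (Set.uIcc δ L) := by
      refine continuousOn_const.mul (continuousOn_finsetSum _ fun i _ => ?_)
      refine ContinuousOn.div continuousOn_id (by fun_prop) ?_
      intro t ht
      rw [Set.uIcc_of_le hL] at ht
      exact (hpos i t (hδ.trans_le ht.1)).ne'
    have h6 := intervalIntegral.integral_eq_sub_of_hasDerivAt hd hcont.intervalIntegrable
    rw [ld_eq hl hdet L (hδ.trans_le hL), ld_eq hl hdet δ hδ, ← h6]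
    refine intervalIntegral.integral_congr fun t ht => ?_
    rw [Set.uIcc_of_le hL] at ht
    rw [htg t (hδ.trans_le ht.1)]

end Pool.Agent.W253.GB
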