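import Pool.Agent.W837.GB.Defs

/-!
# GB-LOW: lower deviations of the normalised determinant
-/

set_option autoImplicit false

open MeasureTheory ProbabilityTheory Filter Topology
open scoped NNReal Matrix ComplexOrder

namespace Pool.Agent.W253.GB

open Pool.Agent.W837.GB

instance gam_prob (ι : Type) [Fintype ι] : IsProbabilityMeasure (gam ι) := by
  unfold gam
  infer_instance

theorem rt_pos {N : ℕ} (hN : 1 ≤ N) : 0 < rt N := by
  unfold rt
  exact Real.rpow_pos_of_pos (by exact_mod_cast hN) _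

theorem rt_le_one {N : ℕ} (hN : 1 ≤ N) : rt N ≤ 1 := by
  unfold rt
  exact Real.rpow_le_one_of_one_le_of_nonpos (by exact_mod_cast hN) (by norm_num)

theorem dl_pos {N : ℕ} (hN : 1 ≤ N) : 0 < dl N := by
  unfold dl
  exact Real.rpow_pos_of_pos (by exact_mod_cast hN) _

theorem rt_half {N N' : ℕ} (hN : 1 ≤ N) (hN' : 1 ≤ N') (h : (N : ℝ) ≤ 2 * N') :
    rt N' ≤ 3 * rt N := by
  have h0 : (0 : ℝ) < N := by exact_mod_cast hN
  have h1 : (0 : ℝ) < N' := by exact_mod_cast hN'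
  unfold rt
  have h2 : (2 * (N' : ℝ)) ^ (-(3 / 2 : ℝ)) ≤ (N : ℝ) ^ (-(3 / 2 : ℝ)) :=
    Real.rpow_le_rpow_of_nonpos h0 h (by norm_num)
  rw [Real.mul_rpow (by norm_num) h1.le] at h2
  have h3 : (1 / 3 : ℝ) ≤ (2 : ℝ) ^ (-(3 / 2 : ℝ)) := by
    have h4 : (2 : ℝ) ^ (-(3 / 2 : ℝ)) = ((2 : ℝ) ^ (3 / 2 : ℝ))⁻¹ :=
      Real.rpow_neg (by norm_num) _
    rw [h4, one_div]
    have h5 : (2 : ℝ) ^ (3 / 2 : ℝ) ≤ 3 := by
      have h6 : (2 : ℝ) ^ (3 / 2 : ℝ) = Real.sqrt ((2 : ℝ) ^ (3 : ℝ)) := by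
        rw [Real.sqrt_eq_rpow, ← Real.rpow_mul (by norm_num)]
        norm_num
      rw [h6]
      rw [Real.sqrt_le_left (by norm_num)]
      norm_num
    exact inv_anti₀ (Real.rpow_pos_of_pos (by norm_num) _) h5
  have h7 : 0 < (N' : ℝ) ^ (-(3 / 2 : ℝ)) := Real.rpow_pos_of_pos h1 _
  nlinarith

theorem small_N {N N0 : ℕ} (hN : 1 ≤ N) (h : N < N0) : 1 ≤ (N0 : ℝ) ^ (3 / 2 : ℝ) * rt N := by
  have h0 : (0 : ℝ) < N := by exact_mod_cast hN
  have h1 : (N : ℝ) ≤ N0 := by exact_mod_cast h.le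
  unfold rt
  rw [Real.rpow_neg h0.le, ← div_eq_mul_inv, one_le_div (Real.rpow_pos_of_pos h0 _)]
  exact Real.rpow_le_rpow h0.le h1 (by norm_num)

/-- comparison of the two normalisations -/
theorem det_scale {n m N N' : ℕ} (a : Fin n → Matrix (Fin m) (Fin m) ℂ) (hm : 1 ≤ m) (hN : 1 ≤ N)
    (hN' : 1 ≤ N') (g : Fin n × Fin N × Fin N → ℝ) (x : ℝ) (hg : DN a N g ≤ x) :
    ‖((((Real.sqrt N')⁻¹ : ℝ) : ℂ) • W a g).det‖ ≤ (Real.sqrt (N / N') * x) ^ (m * N) := by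
  have h0 : (0 : ℝ) < N := by exact_mod_cast hN
  have h1 : (0 : ℝ) < N' := by exact_mod_cast hN'
  have hm0 : (0 : ℝ) < m := by exact_mod_cast hm
  have hs0 : 0 < Real.sqrt N := Real.sqrt_pos.2 h0
  have hs1 : 0 < Real.sqrt N' := Real.sqrt_pos.2 h1
  have hcard : Fintype.card (Fin m × Fin N) = m * N := by simp
  have hx : 0 ≤ x := (Real.rpow_nonneg (norm_nonneg _) _).trans hg
  have hA : ‖(AN a N g).det‖ ≤ x ^ (m * N) := by
    unfold DN at hg
    have h2 := pow_le_pow_left₀ (Real.rpow_nonneg (norm_nonneg _) _) hg (m * N)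
    rw [← Real.rpow_natCast, ← Real.rpow_mul (norm_nonneg _)] at h2
    have h3 : 1 / ((m : ℝ) * (N : ℝ)) * ((m * N : ℕ) : ℝ) = 1 := by
      push_cast
      field_simp
    rwa [h3, Real.rpow_one] at h2
  have hW : ‖((((Real.sqrt N')⁻¹ : ℝ) : ℂ) • W a g).det‖ =
      Real.sqrt (N / N') ^ (m * N) * ‖(AN a N g).det‖ := by
    unfold AN
    rw [Matrix.det_smul, Matrix.det_smul, hcard, norm_mul, norm_mul, norm_pow, norm_pow,
      Complex.norm_real, Complex.norm_real, Real.norm_of_nonneg (inv_nonneg.2 hs1.le),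
      Real.norm_of_nonneg (inv_nonneg.2 hs0.le), ← mul_assoc, ← mul_pow,
      Real.sqrt_div h0.le]
    congr 2
    field_simp
  rw [hW, mul_pow]
  exact mul_le_mul_of_nonneg_left hA (pow_nonneg (Real.sqrt_nonneg _) _)

theorem low (h1 : S_LOWD) (h2 : S_BULK) (h3 : S_COND) (h4 : S_ASY) (h5 : S_DSINV) : S_LOW := by
  intro n m a hm hds hind ε hε
  have hinv := h5 n m a hm hds
  obtain ⟨K0, C0, hK0, hC0, hL⟩ := h1 n m a hm hind hinv
  have he0 : 0 < Real.exp (-(1 / 2 : ℝ)) := Real.exp_pos _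
  obtain ⟨ε', hε'0, hε'1, hε'2⟩ : ∃ ε' : ℝ, 0 < ε' ∧ ε' < Real.exp (-(1 / 2)) ∧ ε' ≤ ε := by
    refine ⟨min ε (Real.exp (-(1 / 2)) / 2), lt_min hε (half_pos he0), ?_, min_le_left _ _⟩
    exact (min_le_right _ _).trans_lt (half_lt_self he0)
  obtain ⟨ε1, hε1, N0, hA⟩ := h4 m K0 C0 ε' hm hK0 hC0 hε'0 hε'1
  obtain ⟨hb1, C2, hC2, hB2⟩ := h2 n m a hm hds
  obtain ⟨C1, hC1, hB1⟩ := hb1 ε1 hε1
  have hm0 : (0 : ℝ) < m := by exact_mod_cast hm
  have hp : 0 ≤ (N0 : ℝ) ^ (3 / 2 : ℝ) := Real.rpow_nonneg (Nat.cast_nonneg _) _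
  refine ⟨3 * (C1 + C2) + C0 * C0 + (N0 : ℝ) ^ (3 / 2 : ℝ), fun N hN => ?_⟩
  have hrt := rt_pos hN
  by_cases hN0 : N0 ≤ N
  · obtain ⟨k1, N', hk1, hN', hNN, hN2, hdl, hk, hfin⟩ := hA N hN0
    have hN'0 : (0 : ℝ) < N' := by exact_mod_cast hN'
    have hd := dl_pos hN'
    have hk10 : (0 : ℝ) < k1 := by exact_mod_cast hk1
    have hC00 : (0 : ℝ) < C0 := by exact_mod_cast hC0
    have hmN : 0 < (m : ℝ) * N' := mul_pos hm0 hN'0
    have hrt2 := rt_half hN hN' hN2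
    set θ : ℝ := (rt N / (C0 * (N' + k1 : ℝ) ^ C0)) ^ (C0 * k1) *
        Real.exp (-(m * N' * (1 + ε1) / 2) - 2 * m * dl N' * N') with hθ
    set Bad : Set (Fin n × Fin N' × Fin N' → ℝ) :=
      {g | ε1 ≤ |ld (AN a N' g) (dl N') / (m * N') + 1|} ∪
        {g | 2 ≤ tg (AN a N' g) (dl N') / (m * N')} with hBad
    have hBadm : (gam (Fin n × Fin N' × Fin N')).real Bad ≤ 3 * (C1 + C2) * rt N := by
      refine (measureReal_union_le _ _).trans ?_
      have h6 := hB1 N' hN'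
      have h7 := hB2 N' hN'
      have h8 := mul_le_mul_of_nonneg_left hrt2 (add_nonneg hC1 hC2)
      nlinarith
    have hcond : ∀ g', g' ∉ Bad → (gam (Bd n N' (K0 * k1))).real
        {h | ‖((((Real.sqrt N')⁻¹ : ℝ) : ℂ) • W a (glue g' h)).det‖ < θ} ≤ C0 * rt N := by
      intro g' hg'
      rw [hBad, Set.mem_union, not_or] at hg'
      have h6 : |ld (AN a N' g') (dl N') / (m * N') + 1| < ε1 := not_le.1 hg'.1
      have h7 : tg (AN a N' g') (dl N') / (m * N') < 2 := not_le.1 hg'.2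
      have h8 : -(m * N' * (1 + ε1)) ≤ ld (AN a N' g') (dl N') := by
        have h9 := (abs_lt.1 h6).1
        have h10 : -(1 + ε1) < ld (AN a N' g') (dl N') / (m * N') := by linarith
        rw [lt_div_iff₀ hmN] at h10
        linarith
      have h11 : tg (AN a N' g') (dl N') ≤ 2 * (m * N') := by
        rw [div_lt_iff₀ hmN] at h7
        exact h7.le
      have h12 : dl N' * tg (AN a N' g') (dl N') ≤ 2 * m * dl N' * N' := by
        have h13 := mul_le_mul_of_nonneg_left h11 hd.le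
        linarith
      have h14 := hL N' k1 g' (dl N') (rt N) hN' hk1 hd hdl (by linarith) hrt (rt_le_one hN)
      refine (measureReal_mono ?_).trans h14
      intro h hh
      have hh2 : ‖((((Real.sqrt N')⁻¹ : ℝ) : ℂ) • W a (glue g' h)).det‖ < θ := hh
      refine lt_of_lt_of_le hh2 ?_
      rw [hθ]
      refine mul_le_mul_of_nonneg_left ?_ (by positivity)
      refine Real.exp_le_exp.2 ?_
      linarith
    have h15 := h3 n m N' (K0 * k1) a θ (C0 * rt N) Bad hN' (by positivity) hcond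
    rw [← hNN] at h15
    refine (measureReal_mono ?_).trans (h15.trans ?_)
    · intro g hg
      have hg1 : DN a N g ≤ Real.exp (-(1 / 2)) - ε' := by
        have h16 : DN a N g ≤ Real.exp (-(1 / 2)) - ε := hg
        linarith
      exact lt_of_le_of_lt (det_scale a hm hN hN' g _ hg1) hfin
    · have h17 : (C0 : ℝ) ≤ C0 * C0 := by
        have h18 : (1 : ℝ) ≤ C0 := by exact_mod_cast hC0
        nlinarith
      have h19 := mul_le_mul_of_nonneg_right h17 hrt.le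
      have h20 := mul_nonneg hp hrt.le
      nlinarith
  · have h6 := small_N hN (not_le.1 hN0)
    have h7 : (gam (Fin n × Fin N × Fin N)).real {g | DN a N g ≤ Real.exp (-(1 / 2)) - ε} ≤ 1 :=
      measureReal_le_one
    have h8 : 0 ≤ (3 * (C1 + C2) + C0 * C0) * rt N := by positivity
    nlinarith

end Pool.Agent.W253.GB
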