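import Pool.Agent.W837.GB.Defs
import Pool.Agent.W253.GB.Lder
import Pool.Agent.W253.GB.Low

/-!
# GB-LLARGE: the regularised log determinant for large `L`
-/

set_option autoImplicit false

open MeasureTheory ProbabilityTheory Filter Topology
open scoped NNReal Matrix ComplexOrder

namespace Pool.Agent.W253.GB

open Pool.Agent.W837.GB

/-! ### second moments of the Gaussian coordinates -/

theorem int_eval {ι : Type} [Fintype ι] (i : ι) (f : ℝ → ℝ) (hf : Measurable f) :
    ∫ g, f (g i) ∂(gam ι) = ∫ x, f x ∂(gaussianReal 0 1) := by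
  have hev : MeasurePreserving (Function.eval i) (gam ι) (gaussianReal 0 1) :=
    measurePreserving_eval (fun _ : ι => gaussianReal 0 1) i
  rw [← hev.map_eq]
  exact (integral_map hev.measurable.aemeasurable hf.aestronglyMeasurable).symm

theorem int_mul {ι : Type} [Fintype ι] [DecidableEq ι] (i j : ι) :
    Integrable (fun g : ι → ℝ => g i * g j) (gam ι) ∧
      ∫ g, g i * g j ∂(gam ι) = if i = j then 1 else 0 := by
  have hev : ∀ i : ι, MeasurePreserving (Function.eval i) (gam ι) (gaussianReal 0 1) := fun i =>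
    measurePreserving_eval (fun _ : ι => gaussianReal 0 1) i
  have hL2 : ∀ i : ι, MemLp (fun g : ι → ℝ => g i) 2 (gam ι) := fun i =>
    (memLp_id_gaussianReal' 2 (by norm_num)).comp_measurePreserving (hev i)
  refine ⟨(hL2 i).integrable_mul (hL2 j), ?_⟩
  have h0 : ∀ i : ι, ∫ g, g i ∂(gam ι) = 0 := by
    intro i
    rw [int_eval i (fun x => x) measurable_id, integral_id_gaussianReal]
  by_cases hij : i = j
  · subst hij
    rw [if_pos rfl]
    have h1 : ∀ g : ι → ℝ, g i * g i = (fun x : ℝ => x ^ 2) (g i) := fun g => (sq _).symm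
    simp only [h1]
    rw [int_eval i (fun x => x ^ 2) (by fun_prop)]
    have h2 := variance_of_integral_eq_zero (X := fun x : ℝ => x) (μ := gaussianReal 0 1)
      measurable_id.aemeasurable integral_id_gaussianReal
    rw [← h2, variance_fun_id_gaussianReal]
    rfl
  · rw [if_neg hij]
    have hind : iIndepFun (fun (i : ι) (g : ι → ℝ) => g i) (gam ι) :=
      iIndepFun_pi (X := fun (_ : ι) (x : ℝ) => x) fun _ => measurable_id.aemeasurable
    have h3 := (hind.indepFun hij).integral_fun_mul_eq_mul_integral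
      (hL2 i).1 (hL2 j).1
    rw [h3, h0, zero_mul]

theorem int_real {ι : Type} [Fintype ι] [DecidableEq ι] {n : ℕ} (f : Fin n → ι)
    (hf : Function.Injective f) (r : Fin n → ℝ) :
    Integrable (fun g : ι → ℝ => (∑ j, r j * g (f j)) ^ 2) (gam ι) ∧
      ∫ g, (∑ j, r j * g (f j)) ^ 2 ∂(gam ι) = ∑ j, r j ^ 2 := by
  have h1 : ∀ g : ι → ℝ, (∑ j, r j * g (f j)) ^ 2 =
      ∑ j, ∑ k, (r j * r k) * (g (f j) * g (f k)) := by
    intro g
    rw [sq, Finset.sum_mul_sum]
    refine Finset.sum_congr rfl fun j _ => Finset.sum_congr rfl fun k _ => ?_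
    ring
  have h2 : ∀ j k : Fin n, Integrable (fun g : ι → ℝ => (r j * r k) * (g (f j) * g (f k)))
      (gam ι) := fun j k => (int_mul (f j) (f k)).1.const_mul _
  simp only [h1]
  refine ⟨integrable_finsetSum _ fun j _ => integrable_finsetSum _ fun k _ => h2 j k, ?_⟩
  rw [integral_finsetSum _ fun j _ => integrable_finsetSum _ fun k _ => h2 j k]
  refine Finset.sum_congr rfl fun j _ => ?_
  rw [integral_finsetSum _ fun k _ => h2 j k, Finset.sum_eq_single j]
  · rw [integral_const_mul, (int_mul (f j) (f j)).2, if_pos rfl, mul_one, sq]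
  · intro k _ hk
    rw [integral_const_mul, (int_mul (f j) (f k)).2, if_neg, mul_zero]
    exact fun h => hk (hf h).symm
  · intro h
    exact absurd (Finset.mem_univ j) h

theorem int_cplx {ι : Type} [Fintype ι] [DecidableEq ι] {n : ℕ} (f : Fin n → ι)
    (hf : Function.Injective f) (c : Fin n → ℂ) :
    Integrable (fun g : ι → ℝ => ‖∑ j, c j * (g (f j) : ℂ)‖ ^ 2) (gam ι) ∧
      ∫ g, ‖∑ j, c j * (g (f j) : ℂ)‖ ^ 2 ∂(gam ι) = ∑ j, ‖c j‖ ^ 2 := by
  have h1 : ∀ g : ι → ℝ, ‖∑ j, c j * (g (f j) : ℂ)‖ ^ 2 =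
      (∑ j, (c j).re * g (f j)) ^ 2 + (∑ j, (c j).im * g (f j)) ^ 2 := by
    intro g
    rw [Complex.sq_norm, Complex.normSq_apply, Complex.re_sum, Complex.im_sum]
    simp only [Complex.mul_re, Complex.mul_im, Complex.ofReal_re, Complex.ofReal_im, mul_zero,
      sub_zero, zero_add]
    ring
  have h2 := int_real f hf fun j => (c j).re
  have h3 := int_real f hf fun j => (c j).im
  simp only [h1]
  refine ⟨h2.1.add h3.1, ?_⟩
  rw [integral_add h2.1 h3.1, h2.2, h3.2, ← Finset.sum_add_distrib]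
  refine Finset.sum_congr rfl fun j _ => ?_
  rw [Complex.sq_norm, Complex.normSq_apply]
  ring

/-! ### the Hilbert-Schmidt norm of `AN` -/

theorem hm_pair (u v : ℂ) :
    ‖(u + v) / 2 + Complex.I * ((u - v) / 2)‖ ^ 2 + ‖(v + u) / 2 + Complex.I * ((v - u) / 2)‖ ^ 2 =
      ‖u‖ ^ 2 + ‖v‖ ^ 2 := by
  simp only [Complex.sq_norm, Complex.normSq_apply, Complex.add_re, Complex.add_im,
    Complex.mul_re, Complex.mul_im, Complex.I_re, Complex.I_im, Complex.div_ofNat_re,
    Complex.div_ofNat_im, Complex.sub_re, Complex.sub_im]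
  ring

theorem hm_sum {κ : Type} [Fintype κ] (h : κ → κ → ℂ) :
    ∑ k, ∑ l, ‖(h k l + h l k) / 2 + Complex.I * ((h k l - h l k) / 2)‖ ^ 2 =
      ∑ k, ∑ l, ‖h k l‖ ^ 2 := by
  have h1 : ∑ k, ∑ l, ‖(h k l + h l k) / 2 + Complex.I * ((h k l - h l k) / 2)‖ ^ 2 +
      ∑ k, ∑ l, ‖(h l k + h k l) / 2 + Complex.I * ((h l k - h k l) / 2)‖ ^ 2 =
      ∑ k, ∑ l, ‖h k l‖ ^ 2 + ∑ k, ∑ l, ‖h l k‖ ^ 2 := by
    simp only [← Finset.sum_add_distrib, hm_pair]
  have h2 : ∑ k, ∑ l, ‖(h l k + h k l) / 2 + Complex.I * ((h l k - h k l) / 2)‖ ^ 2 =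
      ∑ k, ∑ l, ‖(h k l + h l k) / 2 + Complex.I * ((h k l - h l k) / 2)‖ ^ 2 :=
    Finset.sum_comm
  have h3 : ∑ k, ∑ l, ‖h l k‖ ^ 2 = ∑ k, ∑ l, ‖h k l‖ ^ 2 := Finset.sum_comm
  linarith

theorem W_apply {n : ℕ} {ν κ : Type} (a : Fin n → Matrix ν ν ℂ) (g : Fin n × κ × κ → ℝ)
    (x y : ν) (k l : κ) : W a g (x, k) (y, l) =
      ((∑ j, a j x y * (g (j, k, l) : ℂ)) + (∑ j, a j x y * (g (j, l, k) : ℂ))) / 2 +
        Complex.I * (((∑ j, a j x y * (g (j, k, l) : ℂ)) -
          (∑ j, a j x y * (g (j, l, k) : ℂ))) / 2) := by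
  unfold W
  rw [Matrix.sum_apply]
  have h1 : ∀ j, Matrix.kronecker (a j) (Hm fun k l => g (j, k, l)) (x, k) (y, l) =
      (a j x y * (g (j, k, l) : ℂ) + a j x y * (g (j, l, k) : ℂ)) / 2 +
        Complex.I * ((a j x y * (g (j, k, l) : ℂ) - a j x y * (g (j, l, k) : ℂ)) / 2) := by
    intro j
    simp only [Matrix.kronecker, Matrix.kroneckerMap_apply, Hm]
    push_cast
    ring
  simp only [h1]
  rw [Finset.sum_add_distrib, ← Finset.mul_sum, ← Finset.sum_div, ← Finset.sum_div,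
    Finset.sum_add_distrib, Finset.sum_sub_distrib]

theorem hs_AN {n m N : ℕ} (a : Fin n → Matrix (Fin m) (Fin m) ℂ) (hN : 1 ≤ N)
    (g : Fin n × Fin N × Fin N → ℝ) :
    (AN a N g * (AN a N g)ᴴ).trace.re =
      (N : ℝ)⁻¹ * ∑ x, ∑ y, ∑ k, ∑ l, ‖∑ j, a j x y * (g (j, k, l) : ℂ)‖ ^ 2 := by
  have hN0 : (0 : ℝ) < N := by exact_mod_cast hN
  have h1 : (AN a N g * (AN a N g)ᴴ).trace.re =
      ∑ p : Fin m × Fin N, ∑ q : Fin m × Fin N, ‖AN a N g p q‖ ^ 2 := by
    rw [Matrix.trace, Complex.re_sum]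
    refine Finset.sum_congr rfl fun p _ => ?_
    rw [Matrix.diag_apply, Matrix.mul_apply, Complex.re_sum]
    refine Finset.sum_congr rfl fun q _ => ?_
    rw [Matrix.conjTranspose_apply, Complex.sq_norm, Complex.normSq_apply]
    simp
  have h2 : ∀ p q : Fin m × Fin N, ‖AN a N g p q‖ ^ 2 = (N : ℝ)⁻¹ * ‖W a g p q‖ ^ 2 := by
    intro p q
    unfold AN
    rw [Matrix.smul_apply, smul_eq_mul, norm_mul, mul_pow, Complex.norm_real,
      Real.norm_of_nonneg (inv_nonneg.2 (Real.sqrt_nonneg _)), inv_pow, Real.sq_sqrt hN0.le]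
  rw [h1]
  simp only [h2, ← Finset.mul_sum]
  congr 1
  rw [Fintype.sum_prod_type]
  simp only [Fintype.sum_prod_type]
  refine Finset.sum_congr rfl fun x _ => ?_
  rw [Finset.sum_comm]
  refine Finset.sum_congr rfl fun y _ => ?_
  simp only [W_apply]
  exact hm_sum fun k l => ∑ j, a j x y * (g (j, k, l) : ℂ)

theorem ds_sum {n m : ℕ} (a : Fin n → Matrix (Fin m) (Fin m) ℂ) (h : DS a) :
    ∑ x, ∑ y, ∑ j, ‖a j x y‖ ^ 2 = (m : ℝ) := by
  have h1 := congrArg (fun M : Matrix (Fin m) (Fin m) ℂ => M.trace.re) h.1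
  simp only [eta, mul_one, Matrix.trace_one, Fintype.card_fin, Complex.natCast_re] at h1
  rw [← h1, Matrix.trace_sum, Complex.re_sum]
  have h2 : ∀ j, (a j * (a j)ᴴ).trace.re = ∑ x, ∑ y, ‖a j x y‖ ^ 2 := by
    intro j
    rw [Matrix.trace, Complex.re_sum]
    refine Finset.sum_congr rfl fun p _ => ?_
    rw [Matrix.diag_apply, Matrix.mul_apply, Complex.re_sum]
    refine Finset.sum_congr rfl fun q _ => ?_
    rw [Matrix.conjTranspose_apply, Complex.sq_norm, Complex.normSq_apply]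
    simp
  simp only [h2]
  have h3 : ∀ x : Fin m, ∑ y, ∑ j, ‖a j x y‖ ^ 2 = ∑ j, ∑ y, ‖a j x y‖ ^ 2 :=
    fun x => Finset.sum_comm
  rw [Finset.sum_congr rfl fun x _ => h3 x]
  exact Finset.sum_comm

theorem int_AN {n m N : ℕ} (a : Fin n → Matrix (Fin m) (Fin m) ℂ) (h : DS a) (hN : 1 ≤ N) :
    Integrable (fun g => (AN a N g * (AN a N g)ᴴ).trace.re) (gam (Fin n × Fin N × Fin N)) ∧
      ∫ g, (AN a N g * (AN a N g)ᴴ).trace.re ∂(gam (Fin n × Fin N × Fin N)) = m * N := by
  have hN0 : (0 : ℝ) < N := by exact_mod_cast hN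
  have hinj : ∀ k l : Fin N, Function.Injective fun j : Fin n => (j, k, l) := by
    intro k l i j hij
    exact congrArg Prod.fst hij
  have h1 : ∀ (x y : Fin m) (k l : Fin N), _ := fun x y k l =>
    int_cplx (ι := Fin n × Fin N × Fin N) (fun j => (j, k, l)) (hinj k l) fun j => a j x y
  simp only [hs_AN a hN]
  have hi : ∀ (x y : Fin m), Integrable (fun g : Fin n × Fin N × Fin N → ℝ =>
      ∑ k, ∑ l, ‖∑ j, a j x y * (g (j, k, l) : ℂ)‖ ^ 2) (gam (Fin n × Fin N × Fin N)) :=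
    fun x y => integrable_finsetSum _ fun k _ => integrable_finsetSum _ fun l _ => (h1 x y k l).1
  refine ⟨(integrable_finsetSum _ fun x _ => integrable_finsetSum _ fun y _ =>
    hi x y).const_mul _, ?_⟩
  rw [integral_const_mul, integral_finsetSum _ fun x _ => integrable_finsetSum _ fun y _ => hi x y]
  have h2 : ∀ x, ∫ g, ∑ y, ∑ k, ∑ l, ‖∑ j, a j x y * (g (j, k, l) : ℂ)‖ ^ 2
      ∂(gam (Fin n × Fin N × Fin N)) = (N : ℝ) ^ 2 * ∑ y, ∑ j, ‖a j x y‖ ^ 2 := by
    intro x
    rw [integral_finsetSum _ fun y _ => hi x y, Finset.mul_sum]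
    refine Finset.sum_congr rfl fun y _ => ?_
    rw [integral_finsetSum _ fun k _ => integrable_finsetSum _ fun l _ => (h1 x y k l).1]
    have h3 : ∀ k : Fin N, ∫ g, ∑ l, ‖∑ j, a j x y * (g (j, k, l) : ℂ)‖ ^ 2
        ∂(gam (Fin n × Fin N × Fin N)) = N * ∑ j, ‖a j x y‖ ^ 2 := by
      intro k
      rw [integral_finsetSum _ fun l _ => (h1 x y k l).1]
      simp only [(h1 x y k _).2]
      rw [Finset.sum_const, Finset.card_univ, Fintype.card_fin, nsmul_eq_mul]
    simp only [h3]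
    rw [Finset.sum_const, Finset.card_univ, Fintype.card_fin, nsmul_eq_mul]
    ring
  simp only [h2]
  rw [← Finset.mul_sum, ds_sum a h]
  field_simp

/-! ### continuity -/

theorem continuous_AN {n m N : ℕ} (a : Fin n → Matrix (Fin m) (Fin m) ℂ) :
    Continuous fun g : Fin n × Fin N × Fin N → ℝ => AN a N g := by
  refine continuous_matrix fun p q => ?_
  unfold AN
  simp only [Matrix.smul_apply, smul_eq_mul]
  refine continuous_const.mul ?_
  obtain ⟨x, k⟩ := p
  obtain ⟨y, l⟩ := q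
  simp only [W_apply]
  fun_prop

theorem continuous_Q {ι : Type} [Fintype ι] [DecidableEq ι] (δ : ℝ) :
    Continuous fun M : Matrix ι ι ℂ => Q M δ := by
  unfold Q
  fun_prop

theorem Q_pos {ι : Type} [Fintype ι] [DecidableEq ι] (M : Matrix ι ι ℂ) (δ : ℝ) (hδ : 0 < δ) :
    0 < (Q M δ).det.re := (lder ι M).1 δ hδ |>.1

theorem continuous_ld {ι : Type} [Fintype ι] [DecidableEq ι] (δ : ℝ) (hδ : 0 < δ) :
    Continuous fun M : Matrix ι ι ℂ => ld M δ := by
  unfold ld
  refine Continuous.log ?_ fun M => (Q_pos M δ hδ).ne'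
  exact Complex.continuous_re.comp (continuous_Q δ).matrix_det

/-- deterministic bounds -/
theorem ld_bounds {ι : Type} [Fintype ι] [DecidableEq ι] (M : Matrix ι ι ℂ) (L : ℝ) (hL : 0 < L) :
    Fintype.card ι * (2 * Real.log L) ≤ ld M L ∧
      ld M L ≤ Fintype.card ι * (2 * Real.log L) + (M * Mᴴ).trace.re / L ^ 2 ∧
      0 ≤ (M * Mᴴ).trace.re := by
  obtain ⟨l, hl, htr, hdet, -⟩ := eig M
  have hL2 : 0 < L ^ 2 := by positivity
  rw [ld_eq hl hdet L hL, htr, Complex.ofReal_re]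
  have h0 : (Fintype.card ι : ℝ) * (2 * Real.log L) = ∑ _i : ι, 2 * Real.log L := by
    rw [Finset.sum_const, Finset.card_univ, nsmul_eq_mul]
  have hlog : Real.log (L ^ 2) = 2 * Real.log L := by
    rw [Real.log_pow]
    norm_num
  refine ⟨?_, ?_, Finset.sum_nonneg fun i _ => hl i⟩
  · rw [h0]
    refine Finset.sum_le_sum fun i _ => ?_
    rw [← hlog]
    exact Real.log_le_log hL2 (by linarith [hl i])
  · rw [h0, Finset.sum_div, ← Finset.sum_add_distrib]
    refine Finset.sum_le_sum fun i _ => ?_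
    have h1 : l i + L ^ 2 = L ^ 2 * (1 + l i / L ^ 2) := by
      field_simp
      ring
    have h2 : 0 ≤ l i / L ^ 2 := div_nonneg (hl i) hL2.le
    rw [h1, Real.log_mul hL2.ne' (by positivity), hlog]
    have h3 := Real.log_le_sub_one_of_pos (x := 1 + l i / L ^ 2) (by positivity)
    linarith

theorem llarge : S_LLARGE := by
  intro n m a hm hds N L hN hL
  have hN0 : (0 : ℝ) < N := by exact_mod_cast hN
  have hm0 : (0 : ℝ) < m := by exact_mod_cast hm
  have hL2 : 0 < L ^ 2 := by positivity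
  obtain ⟨hi1, hi2⟩ := int_AN a hds hN
  have hcard : ((Fintype.card (Fin m × Fin N) : ℕ) : ℝ) = m * N := by simp
  have hb : ∀ g : Fin n × Fin N × Fin N → ℝ,
      (m * N : ℝ) * (2 * Real.log L) ≤ ld (AN a N g) L ∧
      ld (AN a N g) L ≤ (m * N : ℝ) * (2 * Real.log L) +
        (AN a N g * (AN a N g)ᴴ).trace.re / L ^ 2 ∧
      0 ≤ (AN a N g * (AN a N g)ᴴ).trace.re := by
    intro g
    have h := ld_bounds (AN a N g) L hL
    rwa [hcard] at h
  have hcont : Continuous fun g : Fin n × Fin N × Fin N → ℝ => ld (AN a N g) L :=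
    (continuous_ld L hL).comp (continuous_AN a)
  have hint : Integrable (fun g => ld (AN a N g) L) (gam (Fin n × Fin N × Fin N)) := by
    refine Integrable.mono' (g := fun g => |(m * N : ℝ) * (2 * Real.log L)| +
      (AN a N g * (AN a N g)ᴴ).trace.re / L ^ 2)
      ((integrable_const _).add (hi1.div_const _)) hcont.aestronglyMeasurable ?_
    refine Filter.Eventually.of_forall fun g => ?_
    obtain ⟨h1, h2, h3⟩ := hb g
    have h4 := div_nonneg h3 hL2.le
    rw [Real.norm_eq_abs, abs_le]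
    have h5 := neg_abs_le ((m * N : ℝ) * (2 * Real.log L))
    have h6 := le_abs_self ((m * N : ℝ) * (2 * Real.log L))
    constructor <;> linarith
  refine ⟨hint, ?_, ?_⟩
  · rw [le_div_iff₀ (by positivity)]
    have h1 := integral_mono (μ := gam (Fin n × Fin N × Fin N))
      (integrable_const ((m * N : ℝ) * (2 * Real.log L))) hint fun g => (hb g).1
    rw [integral_const, probReal_univ, one_smul] at h1
    linarith
  · rw [div_le_iff₀ (by positivity)]
    have h1 := integral_mono (μ := gam (Fin n × Fin N × Fin N)) hint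
      ((integrable_const ((m * N : ℝ) * (2 * Real.log L))).add (hi1.div_const (L ^ 2)))
      fun g => (hb g).2.1
    have h2 : ∫ g, ((m * N : ℝ) * (2 * Real.log L) + (AN a N g * (AN a N g)ᴴ).trace.re / L ^ 2)
        ∂(gam (Fin n × Fin N × Fin N)) = (m * N : ℝ) * (2 * Real.log L) + m * N / L ^ 2 := by
      rw [integral_add (integrable_const _) (hi1.div_const _), integral_const, probReal_univ,
        one_smul, integral_div, hi2]
    refine (h1.trans (le_of_eq h2)).trans (le_of_eq ?_)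
    field_simp

end Pool.Agent.W253.GB
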