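import Pool.Agent.W837.GB.Defs
import Pool.Agent.W253.GB.Lder
import Pool.Agent.W253.GB.Llarge

/-!
# GB-PSD: positivity of the expected partial traces
-/

set_option autoImplicit false

open MeasureTheory ProbabilityTheory Filter Topology
open scoped NNReal Matrix ComplexOrder

namespace Pool.Agent.W253.GB

open Pool.Agent.W837.GB

section det

variable {ι : Type} [Fintype ι] [DecidableEq ι]

theorem X_facts (M : Matrix ι ι ℂ) (δ : ℝ) (hδ : 0 < δ) :
    ((δ : ℂ) • (Q M δ)⁻¹).PosSemidef ∧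
      (((δ⁻¹ : ℝ) : ℂ) • (1 : Matrix ι ι ℂ) - (δ : ℂ) • (Q M δ)⁻¹).PosSemidef ∧
      ∀ i j, ‖((δ : ℂ) • (Q M δ)⁻¹) i j‖ ≤ Fintype.card ι * δ⁻¹ := by
  obtain ⟨U, l, hl, hU1, hU2, hM, hQ, hQi⟩ := specQ M
  have hpos : ∀ i, 0 < l i + δ ^ 2 := by
    intro i
    have := hl i
    positivity
  have hX : (δ : ℂ) • (Q M δ)⁻¹ =
      U * Matrix.diagonal (fun i => ((δ * (l i + δ ^ 2)⁻¹ : ℝ) : ℂ)) * Uᴴ := by
    rw [hQi δ hδ, ← Matrix.smul_mul, ← Matrix.mul_smul, ← Matrix.diagonal_smul]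
    congr 3
    funext i
    simp
  have h1 : ((δ⁻¹ : ℝ) : ℂ) • (1 : Matrix ι ι ℂ) =
      U * Matrix.diagonal (fun _ => ((δ⁻¹ : ℝ) : ℂ)) * Uᴴ := by
    rw [← Matrix.smul_one_eq_diagonal, Matrix.mul_smul, Matrix.smul_mul, mul_one, hU1]
  have hle : ∀ i, δ * (l i + δ ^ 2)⁻¹ ≤ δ⁻¹ := by
    intro i
    rw [← div_eq_mul_inv, div_le_iff₀ (hpos i)]
    have h2 : δ⁻¹ * (l i + δ ^ 2) = δ⁻¹ * l i + δ := by
      field_simp
    rw [h2]
    have h3 := mul_nonneg (inv_nonneg.2 hδ.le) (hl i)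
    linarith
  refine ⟨?_, ?_, ?_⟩
  · rw [hX]
    refine Matrix.PosSemidef.mul_mul_conjTranspose_same ?_ U
    refine Matrix.PosSemidef.diagonal fun i => ?_
    have h2 : (0 : ℂ) ≤ ((δ * (l i + δ ^ 2)⁻¹ : ℝ) : ℂ) := by
      exact_mod_cast mul_nonneg hδ.le (inv_nonneg.2 (hpos i).le)
    exact h2
  · rw [hX, h1, ← sub_mul, ← mul_sub, Matrix.diagonal_sub]
    refine Matrix.PosSemidef.mul_mul_conjTranspose_same ?_ U
    refine Matrix.PosSemidef.diagonal fun i => ?_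
    have h2 : (0 : ℂ) ≤ ((δ⁻¹ - δ * (l i + δ ^ 2)⁻¹ : ℝ) : ℂ) := by
      exact_mod_cast sub_nonneg.2 (hle i)
    rw [Complex.ofReal_sub] at h2
    exact h2
  · intro i j
    have hUm : U ∈ Matrix.unitaryGroup ι ℂ := by
      rw [Matrix.mem_unitaryGroup_iff]
      exact hU1
    rw [hX, Matrix.mul_apply]
    simp only [Matrix.mul_diagonal, Matrix.conjTranspose_apply]
    refine (norm_sum_le _ _).trans ?_
    have h4 : ∀ k ∈ Finset.univ, ‖U i k * ((δ * (l k + δ ^ 2)⁻¹ : ℝ) : ℂ) * star (U j k)‖ ≤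
        δ⁻¹ := by
      intro k _
      rw [norm_mul, norm_mul, norm_star, Complex.norm_real,
        Real.norm_of_nonneg (mul_nonneg hδ.le (inv_nonneg.2 (hpos k).le))]
      have h5 := entry_norm_bound_of_unitary hUm i k
      have h6 := entry_norm_bound_of_unitary hUm j k
      have h7 := hle k
      have h8 : 0 ≤ δ * (l k + δ ^ 2)⁻¹ := mul_nonneg hδ.le (inv_nonneg.2 (hpos k).le)
      calc ‖U i k‖ * (δ * (l k + δ ^ 2)⁻¹) * ‖U j k‖
          ≤ 1 * (δ * (l k + δ ^ 2)⁻¹) * 1 := by gcongr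
        _ ≤ δ⁻¹ := by linarith
    refine (Finset.sum_le_sum h4).trans (le_of_eq ?_)
    rw [Finset.sum_const, Finset.card_univ, nsmul_eq_mul]

theorem continuous_X (δ : ℝ) (hδ : 0 < δ) :
    Continuous fun M : Matrix ι ι ℂ => (δ : ℂ) • (Q M δ)⁻¹ := by
  have h1 : (fun M : Matrix ι ι ℂ => (δ : ℂ) • (Q M δ)⁻¹) =
      fun M => (δ : ℂ) • (((Q M δ).det)⁻¹ • (Q M δ).adjugate) := by
    funext M
    rw [Matrix.inv_def, Ring.inverse_eq_inv']
  rw [h1]
  have h3 : Continuous fun M : Matrix ι ι ℂ => ((Q M δ).det)⁻¹ := by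
    refine Continuous.inv₀ (continuous_Q (ι := ι) δ).matrix_det fun M hM => ?_
    have h2 := Q_pos M δ hδ
    rw [hM] at h2
    simp at h2
  have h4 : Continuous fun M : Matrix ι ι ℂ => ((Q M δ).det)⁻¹ • (Q M δ).adjugate :=
    h3.smul (continuous_Q (ι := ι) δ).matrix_adjugate
  exact h4.const_smul (δ : ℂ)

end det

section partialtrace

variable {ν : Type} {N : ℕ}

theorem pt_posSemidef {R : Matrix (ν × Fin N) (ν × Fin N) ℂ} (hR : R.PosSemidef) :
    (pt R).PosSemidef := by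
  have h1 : pt R = (N : ℂ)⁻¹ • ∑ k : Fin N, R.submatrix (fun x => (x, k)) (fun x => (x, k)) := by
    ext x y
    simp only [pt, Matrix.smul_apply, Matrix.sum_apply, Matrix.submatrix_apply, smul_eq_mul]
  rw [h1]
  refine Matrix.PosSemidef.smul ?_ ?_
  · exact Matrix.posSemidef_sum _ fun k _ => hR.submatrix _
  · have h2 : ((N : ℂ)⁻¹) = (((N : ℝ)⁻¹ : ℝ) : ℂ) := by push_cast; rfl
    rw [h2]
    exact_mod_cast inv_nonneg.2 (Nat.cast_nonneg N)

theorem pt_sub_one [DecidableEq ν] (hN : 1 ≤ N) (c : ℂ) (R : Matrix (ν × Fin N) (ν × Fin N) ℂ) :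
    pt (c • (1 : Matrix (ν × Fin N) (ν × Fin N) ℂ) - R) = c • (1 : Matrix ν ν ℂ) - pt R := by
  have hN0 : (N : ℂ) ≠ 0 := by
    have : N ≠ 0 := by omega
    exact_mod_cast this
  ext x y
  simp only [pt, Matrix.sub_apply, Matrix.smul_apply, smul_eq_mul, Finset.sum_sub_distrib, mul_sub]
  congr 1
  have h1 : ∀ k : Fin N, (1 : Matrix (ν × Fin N) (ν × Fin N) ℂ) (x, k) (y, k) =
      (1 : Matrix ν ν ℂ) x y := by
    intro k
    simp [Matrix.one_apply]
  simp only [h1, Finset.sum_const, Finset.card_univ, Fintype.card_fin, nsmul_eq_mul]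
  field_simp

theorem pt_trace [Fintype ν] (hN : 1 ≤ N) (R : Matrix (ν × Fin N) (ν × Fin N) ℂ) :
    R.trace = (N : ℂ) * (pt R).trace := by
  have hN0 : (N : ℂ) ≠ 0 := by
    have : N ≠ 0 := by omega
    exact_mod_cast this
  simp only [Matrix.trace, Matrix.diag_apply, pt]
  rw [← Finset.mul_sum, ← mul_assoc, mul_inv_cancel₀ hN0, one_mul, Fintype.sum_prod_type]

theorem pt_norm (hN : 1 ≤ N) (R : Matrix (ν × Fin N) (ν × Fin N) ℂ) (c : ℝ)
    (hR : ∀ i j, ‖R i j‖ ≤ c) (x y : ν) : ‖pt R x y‖ ≤ c := by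
  have hN0 : (0 : ℝ) < N := by exact_mod_cast hN
  unfold pt
  rw [norm_mul, norm_inv, Complex.norm_natCast, inv_mul_le_iff₀ hN0]
  refine (norm_sum_le _ _).trans ?_
  refine (Finset.sum_le_sum fun k _ => hR (x, k) (y, k)).trans (le_of_eq ?_)
  rw [Finset.sum_const, Finset.card_univ, Fintype.card_fin, nsmul_eq_mul]

theorem continuous_pt (x y : ν) :
    Continuous fun R : Matrix (ν × Fin N) (ν × Fin N) ℂ => pt R x y := by
  unfold pt
  refine continuous_const.mul (continuous_finsetSum _ fun k _ => ?_)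
  exact continuous_id.matrix_elem _ _

end partialtrace

/-- the integral of positive semidefinite matrices -/
theorem integral_posSemidef {Ω : Type} [MeasurableSpace Ω] (P : Measure Ω) {m : ℕ}
    (Y : Ω → Matrix (Fin m) (Fin m) ℂ) (hint : ∀ x y, Integrable (fun ω => Y ω x y) P)
    (hY : ∀ ω, (Y ω).PosSemidef) (M : Matrix (Fin m) (Fin m) ℂ)
    (hM : ∀ x y, M x y = ∫ ω, Y ω x y ∂P) : M.PosSemidef := by
  refine Matrix.PosSemidef.of_dotProduct_mulVec_nonneg ?_ ?_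
  · ext x y
    rw [Matrix.conjTranspose_apply, hM, hM]
    have h1 : ∫ ω, (starRingEnd ℂ) (Y ω y x) ∂P = (starRingEnd ℂ) (∫ ω, Y ω y x ∂P) :=
      integral_conj
    refine h1.symm.trans (integral_congr_ae (Filter.Eventually.of_forall fun ω => ?_))
    exact (hY ω).isHermitian.apply x y
  · intro w
    have h1 : star w ⬝ᵥ (M *ᵥ w) = ∫ ω, star w ⬝ᵥ (Y ω *ᵥ w) ∂P := by
      simp only [dotProduct, Matrix.mulVec]
      have hi : ∀ x y, Integrable (fun ω => Y ω x y * w y) P := fun x y => (hint x y).mul_const _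
      rw [integral_finsetSum _ fun x _ =>
        (integrable_finsetSum _ fun y _ => hi x y).const_mul (star w x)]
      refine Finset.sum_congr rfl fun x _ => ?_
      rw [integral_const_mul, integral_finsetSum _ fun y _ => hi x y]
      congr 1
      refine Finset.sum_congr rfl fun y _ => ?_
      rw [hM, integral_mul_const]
    rw [h1]
    have h2 : ∀ ω, star w ⬝ᵥ (Y ω *ᵥ w) = (((star w ⬝ᵥ (Y ω *ᵥ w)).re : ℝ) : ℂ) := by
      intro ω
      have h3 := (hY ω).dotProduct_mulVec_nonneg w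
      rw [Complex.le_def] at h3
      refine Complex.ext (by simp) ?_
      rw [Complex.ofReal_im]
      exact h3.2.symm
    have h5 : ∫ ω, star w ⬝ᵥ (Y ω *ᵥ w) ∂P =
        ((∫ ω, (star w ⬝ᵥ (Y ω *ᵥ w)).re ∂P : ℝ) : ℂ) :=
      (integral_congr_ae (Filter.Eventually.of_forall h2)).trans integral_complex_ofReal
    rw [h5]
    have h4 : 0 ≤ ∫ ω, (star w ⬝ᵥ (Y ω *ᵥ w)).re ∂P := by
      refine integral_nonneg fun ω => ?_
      have h3 := (hY ω).dotProduct_mulVec_nonneg w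
      rw [Complex.le_def] at h3
      exact h3.1
    exact_mod_cast h4

theorem psd_aux {n m N : ℕ} (hN : 1 ≤ N) {δ : ℝ} (hδ : 0 < δ)
    (A : (Fin n × Fin N × Fin N → ℝ) → Matrix (Fin m × Fin N) (Fin m × Fin N) ℂ)
    (hA : Continuous A) (M : Matrix (Fin m) (Fin m) ℂ)
    (hM : ∀ x y, M x y = ∫ g, pt ((δ : ℂ) • (Q (A g) δ)⁻¹) x y ∂(gam (Fin n × Fin N × Fin N))) :
    M.PosSemidef ∧ (((δ⁻¹ : ℝ) : ℂ) • (1 : Matrix (Fin m) (Fin m) ℂ) - M).PosSemidef ∧
      ∀ x y, Integrable (fun g => pt ((δ : ℂ) • (Q (A g) δ)⁻¹) x y)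
        (gam (Fin n × Fin N × Fin N)) := by
  have hint : ∀ x y, Integrable (fun g => pt ((δ : ℂ) • (Q (A g) δ)⁻¹) x y)
      (gam (Fin n × Fin N × Fin N)) := by
    intro x y
    refine Integrable.mono' (integrable_const (Fintype.card (Fin m × Fin N) * δ⁻¹)) ?_ ?_
    · exact ((continuous_pt x y).comp ((continuous_X δ hδ).comp hA)).aestronglyMeasurable
    · refine Filter.Eventually.of_forall fun g => ?_
      exact pt_norm hN _ _ (X_facts (A g) δ hδ).2.2 x y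
  refine ⟨?_, ?_, hint⟩
  · exact integral_posSemidef _ _ hint (fun g => pt_posSemidef (X_facts (A g) δ hδ).1) M hM
  · refine integral_posSemidef (gam (Fin n × Fin N × Fin N))
      (fun g => ((δ⁻¹ : ℝ) : ℂ) • (1 : Matrix (Fin m) (Fin m) ℂ) - pt ((δ : ℂ) • (Q (A g) δ)⁻¹))
      ?_ ?_ _ ?_
    · intro x y
      simp only [Matrix.sub_apply]
      exact (integrable_const _).sub (hint x y)
    · intro g
      have h1 := pt_posSemidef (X_facts (A g) δ hδ).2.1
      rwa [pt_sub_one hN] at h1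
    · intro x y
      simp only [Matrix.sub_apply]
      rw [integral_sub (integrable_const _) (hint x y), integral_const, probReal_univ, one_smul, hM]

theorem psd : S_PSD := by
  intro n m N a δ hN hδ M1 M2 h1 h2
  obtain ⟨a1, a2, a3⟩ := psd_aux hN hδ (fun g => AN a N g) (continuous_AN a) M1 h1
  obtain ⟨b1, b2, b3⟩ := psd_aux hN hδ (fun g => (AN a N g)ᴴ)
    (continuous_AN a).matrix_conjTranspose M2 h2
  have htg : ∀ g : Fin n × Fin N × Fin N → ℝ, tg (AN a N g) δ =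
      (N : ℝ) * (∑ x, pt ((δ : ℂ) • (Q (AN a N g) δ)⁻¹) x x).re := by
    intro g
    have h3 := pt_trace hN ((δ : ℂ) • (Q (AN a N g) δ)⁻¹)
    have h4 := congrArg Complex.re h3
    rw [Matrix.trace_smul, smul_eq_mul, Complex.re_ofReal_mul] at h4
    unfold tg
    rw [h4]
    have h5 : ((N : ℕ) : ℂ) = (((N : ℕ) : ℝ) : ℂ) := by push_cast; rfl
    rw [h5, Complex.re_ofReal_mul]
    rfl
  have hsum : Integrable (fun g => ∑ x, pt ((δ : ℂ) • (Q (AN a N g) δ)⁻¹) x x)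
      (gam (Fin n × Fin N × Fin N)) := integrable_finsetSum _ fun x _ => a3 x x
  refine ⟨a1, b1, a2, b2, ?_, ?_⟩
  · simp only [htg]
    exact hsum.re.const_mul _
  · simp only [htg]
    rw [integral_const_mul]
    congr 1
    have h6 : ∫ g, (∑ x, pt ((δ : ℂ) • (Q (AN a N g) δ)⁻¹) x x).re
        ∂(gam (Fin n × Fin N × Fin N)) = (∫ g, ∑ x, pt ((δ : ℂ) • (Q (AN a N g) δ)⁻¹) x x
        ∂(gam (Fin n × Fin N × Fin N))).re := integral_re hsum
    rw [h6, integral_finsetSum _ fun x _ => a3 x x]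
    congr 1
    refine Finset.sum_congr rfl fun x _ => ?_
    rw [Matrix.diag_apply, h1]

end Pool.Agent.W253.GB
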